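import Mathlib
import Pool.Agent.X301.WideMain

set_option autoImplicit false

/-!
# Weak compactness and fixed points of uniformly Lipschitz affine maps

Every bounded closed convex set `C` of a Banach space which is not weakly compact contains a
nonempty bounded closed convex set `K` carrying a uniformly Lipschitz affine self map without
fixed points.
-/

open Set

namespace Pool.Agent.Results.MP_f650bf_an.UniformlyLipschitzAffine

/-- `f` is affine on the convex set `K`. -/
def AffineOn {X : Type*} [AddCommGroup X] [Module ℝ X] (K : Set X) (f : X → X) : Prop :=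
  ∀ x ∈ K, ∀ y ∈ K, ∀ t ∈ Icc (0 : ℝ) 1, f (t • x + (1 - t) • y) = t • f x + (1 - t) • f y

/-- all iterates of `f` (with `f` mapping `K` to itself) are Lipschitz on `K` with one and the
same constant. -/
def UniformlyLipschitzOn {X : Type*} [NormedAddCommGroup X] (K : Set X) (f : X → X) : Prop :=
  ∃ L : ℝ, 0 < L ∧ ∀ x ∈ K, ∀ y ∈ K, ∀ p : ℕ, ‖f^[p] x - f^[p] y‖ ≤ L * ‖x - y‖

theorem weak_real_of_weak {𝕜 : Type*} [RCLike 𝕜] {X : Type*} [NormedAddCommGroup X]
    [NormedSpace 𝕜 X] [NormedSpace ℝ X] [IsScalarTower ℝ 𝕜 X] {C : Set X}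
    (h : IsCompact (toWeakSpace ℝ X '' C)) : IsCompact (toWeakSpace 𝕜 X '' C) := by
  let g : WeakSpace ℝ X → WeakSpace 𝕜 X := fun w => toWeakSpace 𝕜 X ((toWeakSpace ℝ X).symm w)
  have hg : Continuous g := by
    refine WeakBilin.continuous_of_continuous_eval _ fun f => ?_
    have h1 : Continuous fun w : WeakSpace ℝ X =>
        (RCLike.reCLM.comp (f.restrictScalars ℝ)) ((toWeakSpace ℝ X).symm w) :=
      WeakBilin.eval_continuous (topDualPairing ℝ X).flip
        (RCLike.reCLM.comp (f.restrictScalars ℝ))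
    have h2 : Continuous fun w : WeakSpace ℝ X =>
        (RCLike.imCLM.comp (f.restrictScalars ℝ)) ((toWeakSpace ℝ X).symm w) :=
      WeakBilin.eval_continuous (topDualPairing ℝ X).flip
        (RCLike.imCLM.comp (f.restrictScalars ℝ))
    have h3 : (fun w : WeakSpace ℝ X => f ((toWeakSpace ℝ X).symm w)) = fun w =>
        (((RCLike.reCLM.comp (f.restrictScalars ℝ)) ((toWeakSpace ℝ X).symm w) : ℝ) : 𝕜) +
        (((RCLike.imCLM.comp (f.restrictScalars ℝ)) ((toWeakSpace ℝ X).symm w) : ℝ) : 𝕜) *
          RCLike.I := by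
      funext w
      simp [RCLike.re_add_im]
    change Continuous (fun w : WeakSpace ℝ X => f ((toWeakSpace ℝ X).symm w))
    rw [h3]
    exact (RCLike.continuous_ofReal.comp h1).add
      ((RCLike.continuous_ofReal.comp h2).mul continuous_const)
  have := h.image hg
  rwa [image_image] at this

/-- Let `X` be a real or complex Banach space and `C` a nonempty bounded closed convex subset of
`X` which is not weakly compact. Then there are a nonempty bounded closed convex set `K ⊆ C` and
an affine uniformly Lipschitz map `f : K → K` without fixed points. -/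
theorem result (𝕜 : Type*) [RCLike 𝕜] (X : Type*) [NormedAddCommGroup X] [NormedSpace 𝕜 X]
    [NormedSpace ℝ X] [IsScalarTower ℝ 𝕜 X] [CompleteSpace X] (C : Set X) (_hne : C.Nonempty)
    (hb : Bornology.IsBounded C) (hcl : IsClosed C) (hcv : Convex ℝ C)
    (hw : ¬ IsCompact (toWeakSpace 𝕜 X '' C)) :
    ∃ K : Set X, K ⊆ C ∧ K.Nonempty ∧ Bornology.IsBounded K ∧ IsClosed K ∧ Convex ℝ K ∧
      ∃ f : X → X, MapsTo f K K ∧ AffineOn K f ∧ UniformlyLipschitzOn K f ∧
        ∀ x ∈ K, f x ≠ x :=
  Pool.Agent.X301.real_main C hb hcl hcv (fun h => hw (weak_real_of_weak h))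

end Pool.Agent.Results.MP_f650bf_an.UniformlyLipschitzAffine
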